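import Pool.Agent.Lib.MP_d6499d_co.Main

/-!
# MP_d6499d_co: graphs not homomorphic to `C_5` have polynomial removal threshold above `1/5`

The question (Q1) asks whether every graph `H` with chromatic number `3` and without a homomorphism
to `C_5` has polynomial removal threshold larger than `1/5`.  The answer is yes.  We prove more
generally, for every finite graph `H` and every `k ≥ 1`: if `H` has no homomorphism to `C_{2k+1}`,
then its polynomial removal threshold is larger than `1/(2k+1)`; the question is the case `k = 2`.

The definitions (`EdgeDisjoint`, `HasDisjointCopies`, `removalSet`, `removalDelta`,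
`polyRemThreshold`) are in `Pool/Agent/Lib/MP_d6499d_co/Defs.lean`, and the proof is in
`Pool/Agent/Lib/MP_d6499d_co/Main.lean`.
-/

namespace Pool.Agent.Results.MP_d6499d_co.OddCycleThreshold

open Pool.Agent.Lib.MP_d6499d_co

/-- If a finite graph `H` has no homomorphism to the odd cycle `C_{2k+1}`, `k ≥ 1`, then
`δ_poly-rem(H) > 1/(2k+1)`.  For `k = 2` this answers the question in the affirmative. -/
theorem result : ∀ (V : Type) [Fintype V] (H : SimpleGraph V) (k : ℕ), 1 ≤ k →
    ¬ Nonempty (H →g SimpleGraph.cycleGraph (2 * k + 1)) →
    (1 : ℝ) / (2 * k + 1) < polyRemThreshold H :=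
  main

end Pool.Agent.Results.MP_d6499d_co.OddCycleThreshold
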